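import Pool.Agent.LCL89.Hier.Stmt

set_option autoImplicit false

/-!
# Preimages, Borel measurability and the Vaught transform for `IsSigma`
-/

namespace Pool.Agent.LCL89

open Topology Set

theorem preimage : StmtPreimage := by
  intro X Y _ _ f hf ξ A hA
  induction hA with
  | of_open h => exact IsSigma.of_open (h.preimage hf)
  | iUnion hξ η B h1 hη hB ih =>
    rw [preimage_iUnion]
    simp only [preimage_compl]
    exact IsSigma.iUnion hξ η _ h1 hη ih

theorem sigmaBorel : StmtSigmaBorel := by
  intro X _ _ _ ξ A hA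
  induction hA with
  | of_open h => exact h.measurableSet
  | iUnion hξ η B h1 hη hB ih => exact MeasurableSet.iUnion fun n => (ih n).compl

theorem IsSigma.baireMeasurable {X : Type} [TopologicalSpace X] {ξ : Ordinal.{0}} {A : Set X}
    (hA : IsSigma ξ A) : BaireMeasurableSet A := by
  letI : MeasurableSpace X := borel X
  haveI : BorelSpace X := ⟨rfl⟩
  exact (sigmaBorel ξ A hA).baireMeasurableSet

theorem isMeagre_congr {Y : Type} [TopologicalSpace Y] {S V U : Set Y} (h : S =ᵇ V) :
    IsMeagre (S ∩ U) ↔ IsMeagre (V ∩ U) := by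
  unfold IsMeagre
  have h' : ((S ∩ U)ᶜ : Set Y) =ᵇ ((V ∩ U)ᶜ : Set Y) := by
    filter_upwards [h] with y hy
    have hy' : (y ∈ S) = (y ∈ V) := hy
    show (y ∈ (S ∩ U)ᶜ) = (y ∈ (V ∩ U)ᶜ)
    simp only [mem_compl_iff, mem_inter_iff, hy']
  constructor
  · intro hm
    filter_upwards [hm, h'] with y h1 h2
    have h2' : (y ∈ (S ∩ U)ᶜ) = (y ∈ (V ∩ U)ᶜ) := h2
    rw [← h2']; exact h1
  · intro hm
    filter_upwards [hm, h'] with y h1 h2
    have h2' : (y ∈ (S ∩ U)ᶜ) = (y ∈ (V ∩ U)ᶜ) := h2
    rw [h2']; exact h1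

/-- a set with the Baire property whose complement is nonmeagre in `U` is meagre in some basic
nonempty open subset of `U` -/
theorem not_meagre_compl_iff {Y : Type} [TopologicalSpace Y] [BaireSpace Y] {b : Set (Set Y)}
    (hb : TopologicalSpace.IsTopologicalBasis b) {S U : Set Y} (hS : BaireMeasurableSet S)
    (hU : IsOpen U) :
    ¬ IsMeagre (Sᶜ ∩ U) ↔ ∃ W ∈ b, W.Nonempty ∧ W ⊆ U ∧ IsMeagre (S ∩ W) := by
  constructor
  · intro h
    obtain ⟨V, hVo, hV⟩ := hS.compl.residualEq_isOpen
    rw [isMeagre_congr hV] at h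
    have hne : (V ∩ U).Nonempty := by
      by_contra hc
      rw [Set.not_nonempty_iff_eq_empty] at hc
      rw [hc] at h
      exact h IsMeagre.empty
    obtain ⟨y, hy⟩ := hne
    obtain ⟨W, hWb, hyW, hWs⟩ := hb.exists_subset_of_mem_open hy (hVo.inter hU)
    refine ⟨W, hWb, ⟨y, hyW⟩, fun z hz => (hWs hz).2, ?_⟩
    have hV' : S =ᵇ (Vᶜ : Set Y) := by
      filter_upwards [hV] with y hy
      have hy' : (y ∈ Sᶜ) = (y ∈ V) := hy
      show (y ∈ S) = (y ∈ (Vᶜ : Set Y))
      rw [mem_compl_iff, ← hy', mem_compl_iff, not_not]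
    rw [isMeagre_congr hV']
    have : (Vᶜ : Set Y) ∩ W = ∅ := by
      ext z
      simp only [mem_inter_iff, mem_compl_iff, mem_empty_iff_false, iff_false, not_and]
      exact fun h1 h2 => h1 (hWs h2).1
    rw [this]
    exact IsMeagre.empty
  · rintro ⟨W, hWb, hWne, hWU, hm⟩ hc
    refine not_isMeagre_of_isOpen (hb.isOpen hWb) hWne ?_
    refine (hm.union hc).mono ?_
    intro z hz
    by_cases hzS : z ∈ S
    · exact Or.inl ⟨hzS, hz⟩
    · exact Or.inr ⟨hzS, hWU hz⟩

theorem vaughtU {X Y : Type} [TopologicalSpace X] [TopologicalSpace Y] [BaireSpace Y]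
    [SecondCountableTopology Y] (ξ : Ordinal.{0}) (B : Set (X × Y)) (hB : IsSigma ξ B) :
    ∀ U : Set Y, IsOpen U → IsSigma ξ {x : X | ¬ IsMeagre ({y : Y | (x, y) ∈ B} ∩ U)} := by
  induction hB with
  | @of_open B h =>
    intro U hU
    have : {x : X | ¬ IsMeagre ({y : Y | (x, y) ∈ B} ∩ U)} =
        Prod.fst '' (B ∩ (univ ×ˢ U)) := by
      ext x
      simp only [mem_ofPred_eq, mem_image, mem_inter_iff, mem_prod, mem_univ, true_and,
        Prod.exists, exists_and_right, exists_eq_right]
      have ho : IsOpen ({y : Y | (x, y) ∈ B} ∩ U) :=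
        (h.preimage (by fun_prop : Continuous fun y : Y => (x, y))).inter hU
      constructor
      · intro hn
        by_contra hc
        apply hn
        have : ({y : Y | (x, y) ∈ B} ∩ U) = ∅ := by
          ext y
          simp only [mem_inter_iff, mem_ofPred_eq, mem_empty_iff_false, iff_false]
          intro hy
          exact hc ⟨y, hy⟩
        rw [this]
        exact IsMeagre.empty
      · rintro ⟨y, hy⟩
        exact not_isMeagre_of_isOpen ho ⟨y, hy⟩
    rw [this]
    exact IsSigma.of_open (isOpenMap_fst _ (h.inter (isOpen_univ.prod hU)))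
  | @iUnion ξ hξ η B h1 hη hB ih =>
    intro U hU
    classical
    obtain ⟨b, hbc, -, hb⟩ := TopologicalSpace.exists_countable_basis Y
    have hbne : (insert (∅ : Set Y) b).Countable := hbc.insert _
    obtain ⟨W, hW⟩ := hbne.exists_eq_range ⟨∅, by simp⟩
    -- the sets
    let good : ℕ → ℕ → Prop := fun n m => (W m).Nonempty ∧ W m ⊆ U
    let D : ℕ → ℕ → Set X := fun n m =>
      if good n m then {x : X | ¬ IsMeagre ({y : Y | (x, y) ∈ B n} ∩ W m)} else univ
    have hWo : ∀ m, IsOpen (W m) := by
      intro m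
      have : W m ∈ insert (∅ : Set Y) b := by rw [hW]; exact ⟨m, rfl⟩
      rcases this with h | h
      · rw [h]; exact isOpen_empty
      · exact hb.isOpen h
    have key : {x : X | ¬ IsMeagre ({y : Y | (x, y) ∈ ⋃ n, (B n)ᶜ} ∩ U)} =
        ⋃ k : ℕ, (D (Nat.unpair k).1 (Nat.unpair k).2)ᶜ := by
      ext x
      simp only [mem_ofPred_eq, mem_iUnion]
      have e1 : ({y : Y | ∃ i, (x, y) ∈ (B i)ᶜ} ∩ U) =
          ⋃ n, ({y : Y | (x, y) ∈ B n}ᶜ ∩ U) := by
        ext y
        simp only [mem_compl_iff, mem_inter_iff, mem_ofPred_eq, mem_iUnion, exists_and_right]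
      rw [e1]
      have hbm : ∀ n, BaireMeasurableSet {y : Y | (x, y) ∈ B n} := by
        intro n
        exact (preimage (fun y : Y => (x, y)) (by fun_prop) _ _ (hB n)).baireMeasurable
      constructor
      · intro hn
        have : ∃ n, ¬ IsMeagre ({y : Y | (x, y) ∈ B n}ᶜ ∩ U) := by
          by_contra hc
          push Not at hc
          exact hn (isMeagre_iUnion hc)
        obtain ⟨n, hn⟩ := this
        rw [not_meagre_compl_iff hb (hbm n) hU] at hn
        obtain ⟨V, hVb, hVne, hVU, hVm⟩ := hn
        have : V ∈ insert (∅ : Set Y) b := Or.inr hVb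
        rw [hW] at this
        obtain ⟨m, hm⟩ := this
        refine ⟨Nat.pair n m, ?_⟩
        rw [Nat.unpair_pair]
        have hg : good n m := by
          show (W m).Nonempty ∧ W m ⊆ U
          rw [hm]; exact ⟨hVne, hVU⟩
        show x ∉ D n m
        simp only [D, if_pos hg, mem_ofPred_eq, not_not]
        rw [hm]; exact hVm
      · rintro ⟨k, hk⟩
        set n := (Nat.unpair k).1
        set m := (Nat.unpair k).2
        have hg : good n m := by
          by_contra hg
          apply hk
          simp only [D, if_neg hg, mem_univ]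
        have hk' : x ∉ D n m := hk
        simp only [D, if_pos hg, mem_ofPred_eq, not_not] at hk'
        have hWb : W m ∈ b := by
          have : W m ∈ insert (∅ : Set Y) b := by rw [hW]; exact ⟨m, rfl⟩
          rcases this with h | h
          · exact absurd h hg.1.ne_empty
          · exact h
        have := (not_meagre_compl_iff hb (hbm n) hU).mpr ⟨W m, hWb, hg.1, hg.2, hk'⟩
        intro hc
        exact this (hc.mono (subset_iUnion (fun n => ({y : Y | (x, y) ∈ B n}ᶜ ∩ U)) n))
    rw [key]
    let η' : ℕ → Ordinal.{0} := fun k =>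
      if good (Nat.unpair k).1 (Nat.unpair k).2 then η (Nat.unpair k).1 else 1
    refine IsSigma.iUnion hξ η' _ ?_ ?_ ?_
    · intro k
      by_cases hg : good (Nat.unpair k).1 (Nat.unpair k).2
      · simp only [η', if_pos hg]; exact h1 _
      · simp only [η', if_neg hg]; exact le_refl _
    · intro k
      by_cases hg : good (Nat.unpair k).1 (Nat.unpair k).2
      · simp only [η', if_pos hg]; exact hη _
      · simp only [η', if_neg hg]; exact hξ
    · intro k
      by_cases hg : good (Nat.unpair k).1 (Nat.unpair k).2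
      · simp only [η', D, if_pos hg]; exact ih _ _ (hWo _)
      · simp only [η', D, if_neg hg]; exact IsSigma.of_open isOpen_univ

theorem vaught : StmtVaught := by
  intro X Y _ _ _ _ ξ B hB
  have := vaughtU ξ B hB univ isOpen_univ
  simpa only [inter_univ] using this

end Pool.Agent.LCL89
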