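import Pool.Agent.LCL89.Main.Defs

set_option autoImplicit false

/-!
# Well-founded trees, the hard sets, the Vaught transform: definitions and statements
-/

namespace Pool.Agent.LCL89

open Topology

/-- well-founded `ℕ`-branching trees -/
inductive Tr : Type
  | leaf : Tr
  | node (f : ℕ → Tr) : Tr

/-- assignments -/
abbrev ZZ : Type := List ℕ → Bool

/-- restriction of an assignment to the `j`-th subtree -/
def subz (z : ZZ) (j : ℕ) : ZZ := fun l => z (j :: l)

/-- the evaluation of a tree at an assignment -/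
def Ev : Tr → ZZ → Prop
  | Tr.leaf, z => z [] = true
  | Tr.node f, z => ∀ j, ¬ Ev (f j) (subz z j)

/-- continuous preimages -/
def StmtPreimage : Prop :=
  ∀ {X Y : Type} [TopologicalSpace X] [TopologicalSpace Y] (f : X → Y), Continuous f →
    ∀ (ξ : Ordinal.{0}) (A : Set Y), IsSigma ξ A → IsSigma ξ (f ⁻¹' A)

/-- Lemma H: hard sets of every countable level. -/
def StmtHard : Prop :=
  ∀ β : Ordinal.{0}, 1 ≤ β → β.card ≤ Cardinal.aleph0 → ∃ T : Tr, (∃ f, T = Tr.node f) ∧
    ¬ IsSigma β {z : ZZ | Ev T z}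

/-- Vaught transform: the category quantifier preserves `Σ⁰_ξ`. -/
def StmtVaught : Prop :=
  ∀ {X Y : Type} [TopologicalSpace X] [TopologicalSpace Y] [BaireSpace Y]
    [SecondCountableTopology Y],
    ∀ (ξ : Ordinal.{0}) (B : Set (X × Y)), IsSigma ξ B →
      IsSigma ξ {x : X | ¬ IsMeagre {y : Y | (x, y) ∈ B}}

/-- sets in `Σ⁰_ξ` are Borel -/
def StmtSigmaBorel : Prop :=
  ∀ {X : Type} [TopologicalSpace X] [MeasurableSpace X] [BorelSpace X] (ξ : Ordinal.{0})
    (A : Set X), IsSigma ξ A → MeasurableSet A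

end Pool.Agent.LCL89
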