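import Pool.Agent.LCL89.Hier.Proofs8

set_option autoImplicit false

/-!
# Lemma H: hard sets of every countable level
-/

namespace Pool.Agent.LCL89

open Topology Set

/-- the coding space -/
abbrev CC : Type := List ℕ × ℕ → Bool

/-- both values are attained -/
theorem ev_values (T : Tr) : (∃ z : ZZ, Ev T z) ∧ ∃ z : ZZ, ¬ Ev T z := by
  induction T with
  | leaf =>
    refine ⟨⟨fun _ => true, ?_⟩, ⟨fun _ => false, ?_⟩⟩
    · show (fun _ : List ℕ => true) [] = true; rfl
    · show ¬ (fun _ : List ℕ => false) [] = true; simp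
  | node f ih =>
    choose g hg using fun n => (ih n).1
    choose g' hg' using fun n => (ih n).2
    refine ⟨⟨fun l => match l with | [] => false | j :: l => g' j l, ?_⟩,
      ⟨fun l => match l with | [] => false | j :: l => g j l, ?_⟩⟩
    · intro j hj; exact hg' j hj
    · intro h; exact h 0 (hg 0)

/-- H1 -/
def PropA (β : Ordinal.{0}) (T : Tr) : Prop :=
  ∀ B : Set CC, IsSigma β Bᶜ → ∃ h : CC → ZZ, Continuous h ∧ B = {c | Ev T (h c)}

/-- H2 -/
def PropB (β : Ordinal.{0}) (T : Tr) : Prop :=
  ∀ g : CC → ZZ, (∀ l, IsOpen {c | g c l = true}) → IsSigma β {c | Ev T (g c)}ᶜ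

theorem open_union_clopen {U : Set CC} (hU : IsOpen U) :
    ∃ C : ℕ → Set CC, (∀ n, IsClopen (C n)) ∧ U = ⋃ n, C n := by
  obtain ⟨T, hTc, hTs, hTu⟩ := TopologicalSpace.isOpen_sUnion_countable
    {s : Set CC | IsClopen s ∧ s ⊆ U} (fun s hs => hs.1.isOpen)
  have hins : (insert (∅ : Set CC) T).Countable := hTc.insert _
  obtain ⟨C, hC⟩ := hins.exists_eq_range ⟨∅, by simp⟩
  refine ⟨C, ?_, ?_⟩
  · intro n
    have : C n ∈ insert (∅ : Set CC) T := by rw [hC]; exact ⟨n, rfl⟩
    rcases this with h | h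
    · rw [h]; exact isClopen_empty
    · exact (hTs h).1
  · have h1 : ⋃₀ {s : Set CC | IsClopen s ∧ s ⊆ U} = U := by
      apply subset_antisymm
      · exact sUnion_subset fun s hs => hs.2
      · intro x hx
        obtain ⟨V, hV, hxV, hVU⟩ := (isTopologicalBasis_isClopen (X := CC)).exists_subset_of_mem_open
          hx hU
        exact ⟨V, ⟨hV, hVU⟩, hxV⟩
    rw [← h1, ← hTu]
    ext x
    simp only [mem_sUnion, mem_iUnion]
    constructor
    · rintro ⟨s, hs, hx⟩
      have : s ∈ insert (∅ : Set CC) T := Or.inr hs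
      rw [hC] at this
      obtain ⟨n, rfl⟩ := this
      exact ⟨n, hx⟩
    · rintro ⟨n, hx⟩
      have : C n ∈ insert (∅ : Set CC) T := by rw [hC]; exact ⟨n, rfl⟩
      rcases this with h | h
      · rw [h] at hx; exact absurd hx (notMem_empty x)
      · exact ⟨C n, h, hx⟩

theorem not_ev_node (f : ℕ → Tr) (z : ZZ) :
    ¬ Ev (Tr.node f) z ↔ ∃ j, Ev (f j) (subz z j) := by
  show ¬ (∀ j, ¬ Ev (f j) (subz z j)) ↔ _
  push Not
  rfl

/-- assembling the children -/
theorem assemble (f : ℕ → Tr) (C : ℕ → Set CC) (k : ℕ → ℕ) (hk : Function.Injective k)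
    (hC : ∀ n, ∃ h : CC → ZZ, Continuous h ∧ C n = {c | Ev (f (k n)) (h c)}) :
    ∃ h : CC → ZZ, Continuous h ∧ (⋃ n, C n)ᶜ = {c | Ev (Tr.node f) (h c)} := by
  classical
  choose h hcont hh using hC
  choose z0 hz0 using fun j => (ev_values (f j)).2
  let H : CC → ZZ := fun c l => match l with
    | [] => false
    | j :: l => if hj : ∃ n, k n = j then h hj.choose c l else z0 j l
  refine ⟨H, ?_, ?_⟩
  · refine continuous_pi fun l => ?_
    match l with
    | [] => exact continuous_const
    | j :: l =>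
      by_cases hj : ∃ n, k n = j
      · have : (fun c => H c (j :: l)) = fun c => h hj.choose c l := by
          funext c; show (if hj : ∃ n, k n = j then h hj.choose c l else z0 j l) = _
          rw [dif_pos hj]
        rw [this]
        exact (continuous_apply l).comp (hcont _)
      · have : (fun c => H c (j :: l)) = fun c => z0 j l := by
          funext c; show (if hj : ∃ n, k n = j then h hj.choose c l else z0 j l) = _
          rw [dif_neg hj]
        rw [this]
        exact continuous_const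
  · ext c
    rw [← not_iff_not]
    show ¬ ¬ (c ∈ ⋃ n, C n) ↔ ¬ Ev (Tr.node f) (H c)
    rw [not_not, not_ev_node, mem_iUnion]
    have hsub : ∀ n, subz (H c) (k n) = h n c := by
      intro n
      funext l
      show (if hj : ∃ n', k n' = k n then h hj.choose c l else z0 (k n) l) = _
      have hj : ∃ n', k n' = k n := ⟨n, rfl⟩
      rw [dif_pos hj]
      have : hj.choose = n := hk hj.choose_spec
      rw [this]
    constructor
    · rintro ⟨n, hn⟩
      rw [hh n] at hn
      exact ⟨k n, by rw [hsub]; exact hn⟩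
    · rintro ⟨j, hj⟩
      by_cases hjn : ∃ n, k n = j
      · obtain ⟨n, rfl⟩ := hjn
        rw [hsub] at hj
        exact ⟨n, by rw [hh n]; exact hj⟩
      · exfalso
        have : subz (H c) j = z0 j := by
          funext l
          show (if hj : ∃ n, k n = j then h hj.choose c l else z0 j l) = _
          rw [dif_neg hjn]
        rw [this] at hj
        exact hz0 j hj

theorem isSigma_one {X : Type} [TopologicalSpace X] {A : Set X} (h : IsSigma 1 A) : IsOpen A := by
  generalize hξ : (1 : Ordinal.{0}) = ξ at h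
  cases h with
  | of_open h => exact h
  | iUnion h1 => exact absurd (hξ ▸ h1) (lt_irrefl _)

theorem isSigma_gt {X : Type} [TopologicalSpace X] {β : Ordinal.{0}} (hβ : 1 < β) {A : Set X}
    (h : IsSigma β A) : ∃ (η : ℕ → Ordinal.{0}) (B : ℕ → Set X), (∀ n, 1 ≤ η n) ∧
      (∀ n, η n < β) ∧ (∀ n, IsSigma (η n) (B n)) ∧ A = ⋃ n, (B n)ᶜ := by
  cases h with
  | of_open h => exact absurd hβ (lt_irrefl _)
  | iUnion h1 η B h2 h3 h4 => exact ⟨η, B, h2, h3, h4, rfl⟩

theorem propA_one : PropA 1 (Tr.node fun _ => Tr.leaf) := by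
  intro B hB
  obtain ⟨C, hC, hU⟩ := open_union_clopen (isSigma_one hB)
  have : B = (⋃ n, C n)ᶜ := by rw [← hU, compl_compl]
  rw [this]
  refine assemble (fun _ => Tr.leaf) C id Function.injective_id fun n => ?_
  classical
  refine ⟨fun c _ => decide (c ∈ C n), ?_, ?_⟩
  · refine continuous_pi fun _ => ?_
    have := (hC n)
    rw [continuous_discrete_rng]
    intro b
    cases b with
    | true =>
      have : (fun c => decide (c ∈ C n)) ⁻¹' {true} = C n := by
        ext c; simp
      rw [this]; exact (hC n).isOpen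
    | false =>
      have : (fun c => decide (c ∈ C n)) ⁻¹' {false} = (C n)ᶜ := by
        ext c; simp
      rw [this]; exact (hC n).compl.isOpen
  · ext c
    show c ∈ C n ↔ decide (c ∈ C n) = true
    simp

theorem propB_one : PropB 1 (Tr.node fun _ => Tr.leaf) := by
  intro g hg
  have : {c | Ev (Tr.node fun _ => Tr.leaf) (g c)}ᶜ = ⋃ j : ℕ, {c | g c [j] = true} := by
    ext c
    rw [mem_iUnion]
    exact not_ev_node _ _
  rw [this]
  exact IsSigma.of_open (isOpen_iUnion fun j => hg [j])

theorem hardStep (β : Ordinal.{0}) (hβ : 1 < β) (hc : β.card ≤ Cardinal.aleph0)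
    (ih : ∀ γ, 1 ≤ γ → γ < β → ∃ T, PropA γ T ∧ PropB γ T) :
    ∃ f : ℕ → Tr, PropA β (Tr.node f) ∧ PropB β (Tr.node f) := by
  classical
  -- enumeration of the ordinals in [1, β)
  have hcount : (Iio β).Countable := by
    rw [← Cardinal.le_aleph0_iff_set_countable, Cardinal.mk_Iio_ordinal, ← Cardinal.lift_aleph0.{1,0}]
    exact Cardinal.lift_le.mpr hc
  have hcount' : (Ico 1 β).Countable := hcount.mono fun x hx => hx.2
  obtain ⟨g, hg⟩ := hcount'.exists_eq_range ⟨1, le_refl _, hβ⟩
  have hgm : ∀ n, g n ∈ Ico 1 β := fun n => by rw [hg]; exact ⟨n, rfl⟩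
  choose T hA hB using fun n => ih (g n) (hgm n).1 (hgm n).2
  let f : ℕ → Tr := fun m => T (Nat.unpair m).1
  refine ⟨f, ?_, ?_⟩
  · intro B hBs
    obtain ⟨η, D, h1, h2, h3, h4⟩ := isSigma_gt hβ hBs
    have hex : ∀ n, ∃ m, g m = η n := by
      intro n
      have : η n ∈ Ico 1 β := ⟨h1 n, h2 n⟩
      rw [hg] at this
      exact this
    choose a ha using hex
    have hBeq : B = (⋃ n, (D n)ᶜ)ᶜ := by rw [← h4, compl_compl]
    rw [hBeq]
    refine assemble f (fun n => (D n)ᶜ) (fun n => Nat.pair (a n) n) ?_ fun n => ?_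
    · intro n m hnm
      have := congrArg Nat.unpair hnm
      simp only [Nat.unpair_pair, Prod.mk.injEq] at this
      exact this.2
    · have hf : f (Nat.pair (a n) n) = T (a n) := by
        show T (Nat.unpair (Nat.pair (a n) n)).1 = _
        rw [Nat.unpair_pair]
      rw [hf]
      refine hA (a n) ((D n)ᶜ) ?_
      rw [compl_compl, ha n]
      exact h3 n
  · intro u hu
    have : {c | Ev (Tr.node f) (u c)}ᶜ =
        ⋃ j : ℕ, ({c | Ev (f j) (subz (u c) j)}ᶜ)ᶜ := by
      ext c
      simp only [mem_iUnion, compl_compl]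
      exact not_ev_node _ _
    rw [this]
    refine IsSigma.iUnion hβ (fun j => g (Nat.unpair j).1) _ (fun j => (hgm _).1)
      (fun j => (hgm _).2) fun j => ?_
    exact hB (Nat.unpair j).1 (fun c => subz (u c) j) fun l => hu (j :: l)

theorem hardAll : ∀ β : Ordinal.{0}, 1 ≤ β → β.card ≤ Cardinal.aleph0 →
    ∃ f : ℕ → Tr, PropA β (Tr.node f) ∧ PropB β (Tr.node f) := by
  intro β
  induction β using WellFoundedLT.induction with
  | ind β ih =>
    intro h1 hc
    rcases h1.eq_or_lt with h | h
    · subst h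
      exact ⟨_, propA_one, propB_one⟩
    · refine hardStep β h hc fun γ hγ1 hγ => ?_
      obtain ⟨f, hf⟩ := ih γ hγ hγ1 ((Ordinal.card_le_card hγ.le).trans hc)
      exact ⟨_, hf⟩

theorem hard : StmtHard := by
  intro β h1 hc
  classical
  obtain ⟨f, hA, hB⟩ := hardAll β h1 hc
  refine ⟨Tr.node f, ⟨f, rfl⟩, ?_⟩
  intro hS
  -- basis
  obtain ⟨b, hbc, -, hb⟩ := TopologicalSpace.exists_countable_basis CC
  have hins : (insert (∅ : Set CC) b).Countable := hbc.insert _
  obtain ⟨V, hV⟩ := hins.exists_eq_range ⟨∅, by simp⟩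
  have hVo : ∀ m, IsOpen (V m) := by
    intro m
    have : V m ∈ insert (∅ : Set CC) b := by rw [hV]; exact ⟨m, rfl⟩
    rcases this with h | h
    · rw [h]; exact isOpen_empty
    · exact hb.isOpen h
  let dec : CC → CC → ZZ := fun w c l => decide (∃ n, w (l, n) = true ∧ c ∈ V n)
  let g : CC → ZZ := fun c => dec c c
  have hg : ∀ l, IsOpen {c | g c l = true} := by
    intro l
    have : {c | g c l = true} = ⋃ n, ({c : CC | c (l, n) = true} ∩ V n) := by
      ext c
      simp only [g, dec, decide_eq_true_eq, mem_ofPred_eq, mem_iUnion, mem_inter_iff]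
    rw [this]
    refine isOpen_iUnion fun n => IsOpen.inter ?_ (hVo n)
    have hcl : Continuous fun c : CC => c (l, n) := continuous_apply (l, n)
    exact (isOpen_discrete ({true} : Set Bool)).preimage hcl
  have hD := hB g hg
  -- the complement of `D`
  obtain ⟨h, hh, heq⟩ := hA {c | Ev (Tr.node f) (g c)} hD
  have hDc : IsSigma β {c | Ev (Tr.node f) (g c)} := by
    rw [heq]
    exact preimage h hh β _ hS
  obtain ⟨h', hh', heq'⟩ := hA {c | Ev (Tr.node f) (g c)}ᶜ (by rw [compl_compl]; exact hDc)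
  let w : CC := fun q => decide (V q.2 ⊆ {c | h' c q.1 = true})
  have hw : dec w = h' := by
    funext c l
    have ho : IsOpen {c | h' c l = true} :=
      (isOpen_discrete ({true} : Set Bool)).preimage ((continuous_apply l).comp hh')
    have : (∃ n, w (l, n) = true ∧ c ∈ V n) ↔ h' c l = true := by
      constructor
      · rintro ⟨n, hn, hc⟩
        have : V n ⊆ {c | h' c l = true} := by simpa [w] using hn
        exact this hc
      · intro hc
        obtain ⟨W, hWb, hcW, hWs⟩ := hb.exists_subset_of_mem_open (show c ∈ {c | h' c l = true} from hc) ho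
        have : W ∈ insert (∅ : Set CC) b := Or.inr hWb
        rw [hV] at this
        obtain ⟨n, rfl⟩ := this
        exact ⟨n, by simpa [w] using hWs, hcW⟩
    show decide (∃ n, w (l, n) = true ∧ c ∈ V n) = h' c l
    by_cases hc : h' c l = true
    · rw [hc]; simpa using this.mpr hc
    · rw [Bool.not_eq_true] at hc
      rw [hc]
      have : ¬ ∃ n, w (l, n) = true ∧ c ∈ V n := fun h => by
        have := this.mp h; rw [hc] at this; exact absurd this (by simp)
      simpa using this
  have e1 : w ∈ ({c | Ev (Tr.node f) (g c)}ᶜ : Set CC) ↔ Ev (Tr.node f) (h' w) := by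
    rw [heq']; rfl
  have e2 : g w = h' w := by show dec w w = h' w; rw [hw]
  rw [← e2] at e1
  have e3 : w ∈ ({c | Ev (Tr.node f) (g c)}ᶜ : Set CC) ↔ ¬ Ev (Tr.node f) (g w) := Iff.rfl
  rw [e3] at e1
  tauto

end Pool.Agent.LCL89
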